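import Pool.Agent.H34.D3.Nlm

/-!
The general theorem: polynomial calculus degree close to `n / 2` implies size `n ^ (r / C)` for lines which are disjunctions of
polynomials in gates (helper34).
-/

set_option autoImplicit false
open scoped Classical

namespace H34D3

open SizeDegree GateLines

theorem general (p e : ℕ) [Fact p.Prime] (he : 1 ≤ e) : ∃ C : ℕ, 1 ≤ C ∧ ∀ (n m k r f s N : ℕ) (Φ : Fin m → Clause n),
    (∀ j, (Φ j).card ≤ k) → C ≤ r → r ^ 10 ≤ n → k ^ 4 ≤ n → f ^ 4 ≤ n → s ^ 4 ≤ n →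
      ¬ Derives (p := p) Φ (n / 2 - n / r) 1 → GateLines.Refutes p e f s Φ N → n ^ r ≤ N ^ C := by
  obtain ⟨C, hC, hnum⟩ := num p e he
  refine ⟨C, hC, fun n m k r f s N Φ hk hr hrn hkn hfn hsn hK hR => ?_⟩
  by_contra hN
  push Not at hN
  obtain ⟨w1, w2, Δ, D1, D, hΔ, hD1, heD, hD1D, hd1, hd2, hlt⟩ := hnum n r k f s N hr hrn hkn hfn hsn hN
  exact core2 Φ hk hK hΔ hD1 heD hD1D hd1 hd2 hlt hR

end H34D3
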