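import Pool.Agent.H33.RG.Nf
import Mathlib.Combinatorics.SetFamily.LYM
import Mathlib.Combinatorics.Colex

/-!
The local LYM inequality for the codimensions of a truncated ideal (helper34; background /team-store/H34_AC02.md).
-/

set_option autoImplicit false
open scoped Classical

namespace H34D3

open H95RE H33RG

/-! ### an additive order of the monomials which refines the degree -/

/-- the binary weight -/
def bw {n : ℕ} (T : Finset (Fin n)) : ℕ := ∑ i ∈ T, 2 ^ (i : ℕ)

theorem bw_lt {n : ℕ} (T : Finset (Fin n)) : bw T < 2 ^ n := by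
  have h1 : bw T = ∑ k ∈ T.map Fin.valEmbedding, 2 ^ k := by
    rw [Finset.sum_map]
    rfl
  rw [h1]
  refine Nat.geomSum_lt le_rfl ?_
  intro k hk
  obtain ⟨i, -, rfl⟩ := Finset.mem_map.mp hk
  exact i.2

theorem bw_inj {n : ℕ} {T T' : Finset (Fin n)} (h : bw T = bw T') : T = T' := by
  have h1 : ∀ T : Finset (Fin n), bw T = ∑ k ∈ T.map Fin.valEmbedding, 2 ^ k := by
    intro T
    rw [Finset.sum_map]
    rfl
  rw [h1, h1] at h
  exact Finset.map_injective _ (Finset.geomSum_injective le_rfl h)

theorem bw_insert {n : ℕ} {T : Finset (Fin n)} {i : Fin n} (hi : i ∉ T) : bw (insert i T) = 2 ^ (i : ℕ) + bw T :=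
  Finset.sum_insert hi

/-- the order of the monomials: degree, then binary weight -/
def ww {n : ℕ} (T : Finset (Fin n)) : ℕ := T.card * 2 ^ n + bw T

theorem ww_ord (n : ℕ) : Ord (ww : Finset (Fin n) → ℕ) := by
  constructor
  · intro T T' h
    have h1 := bw_lt T
    have h2 := bw_lt T'
    have h3 : (T.card * 2 ^ n + bw T) % 2 ^ n = (T'.card * 2 ^ n + bw T') % 2 ^ n := by
      have h' : T.card * 2 ^ n + bw T = T'.card * 2 ^ n + bw T' := h
      rw [h']
    rw [Nat.mul_add_mod_self_right, Nat.mul_add_mod_self_right, Nat.mod_eq_of_lt h1, Nat.mod_eq_of_lt h2] at h3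
    exact bw_inj h3
  · intro T T' h
    have h2 := bw_lt T'
    have h1 : (T'.card + 1) * 2 ^ n ≤ T.card * 2 ^ n := Nat.mul_le_mul_right _ h
    show T'.card * 2 ^ n + bw T' < T.card * 2 ^ n + bw T
    have h3 : (T'.card + 1) * 2 ^ n = T'.card * 2 ^ n + 2 ^ n := by ring
    omega

/-- multiplication by a variable respects the order -/
theorem ww_insert {n : ℕ} {T T' : Finset (Fin n)} {i : Fin n} (h : ww T' < ww T) (hi : i ∉ T) :
    ww (insert i T') < ww (insert i T) := by
  by_cases hi' : i ∈ T'
  · rw [Finset.insert_eq_of_mem hi']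
    have h1 : T'.card ≤ T.card := by
      by_contra hc
      have := (ww_ord n).2 T' T (by omega)
      omega
    exact (ww_ord n).2 _ _ (by rw [Finset.card_insert_of_notMem hi]; omega)
  · unfold ww at h ⊢
    rw [Finset.card_insert_of_notMem hi, Finset.card_insert_of_notMem hi', bw_insert hi, bw_insert hi', Nat.add_mul,
      Nat.add_mul]
    omega

/-! ### the number of irreducible monomials is the codimension -/

section
variable {F : Type} [Field F] {n : ℕ}

theorem RM_span (D : ℕ) : RM F n D = Submodule.span F (mono F '' {T : Finset (Fin n) | T.card ≤ D}) := by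
  unfold RM
  congr 1
  ext f
  constructor
  · rintro ⟨T, hT, rfl⟩
    exact ⟨T, hT, rfl⟩
  · rintro ⟨T, hT, rfl⟩
    exact ⟨T, hT, rfl⟩

theorem span_card (S : Finset (Finset (Fin n))) :
    Module.finrank F (Submodule.span F (mono F '' (S : Set (Finset (Fin n))))) = S.card := by
  have h1 : LinearIndependent F (fun T : (S : Set (Finset (Fin n))) => mono F (T : Finset (Fin n))) :=
    (mono_indep F n).comp _ Subtype.val_injective
  have h2 := finrank_span_eq_card h1
  have h3 : Set.range (fun T : (S : Set (Finset (Fin n))) => mono F (T : Finset (Fin n))) =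
      mono F '' (S : Set (Finset (Fin n))) := by
    rw [Set.image_eq_range]
  rw [h3] at h2
  rw [h2]
  simp

/-- the codimension of `V` in degree `D` is the number of monomials of degree at most `D` which are not leading -/
theorem codim_eq (V : Submodule F (X n → F)) (D : ℕ) :
    Module.finrank F (RM F n D) = Module.finrank F ↥(RM F n D ⊓ V) +
      (Finset.univ.filter fun T : Finset (Fin n) => T.card ≤ D ∧ ¬ Red ww V T).card := by
  set S : Finset (Finset (Fin n)) := Finset.univ.filter fun T : Finset (Fin n) => T.card ≤ D ∧ ¬ Red ww V T with hS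
  set W : Submodule F (X n → F) := Submodule.span F (mono F '' (S : Set (Finset (Fin n)))) with hW
  have hWR : W ≤ RM F n D := by
    rw [RM_span]
    refine Submodule.span_mono (Set.image_mono ?_)
    intro T hT
    exact (Finset.mem_filter.mp hT).2.1
  have hcard : ∀ T T' : Finset (Fin n), ww T' ≤ ww T → T'.card ≤ T.card := by
    intro T T' h
    by_contra hc
    have := (ww_ord n).2 T' T (by omega)
    omega
  have hsup : (RM F n D ⊓ V) ⊔ W = RM F n D := by
    refine le_antisymm (sup_le inf_le_left hWR) ?_
    rw [RM_span, Submodule.span_le]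
    rintro _ ⟨T, hT, rfl⟩
    have hTD : T.card ≤ D := hT
    have h1 := mono_mem_sup ww V (ww T) T rfl
    obtain ⟨v, hv, w, hw, hvw⟩ := Submodule.mem_sup.mp h1
    have hwW : w ∈ W := by
      refine (Submodule.span_mono (Set.image_mono ?_) : _ ≤ W) hw
      intro T' hT'
      have h2 : ¬ Red ww V T' ∧ ww T' ≤ ww T := hT'
      exact Finset.mem_coe.mpr (Finset.mem_filter.mpr ⟨Finset.mem_univ _, (hcard T T' h2.2).trans hTD, h2.1⟩)
    have hvD : v ∈ RM F n D := by
      have h2 : v = mono F T - w := by rw [← hvw]; abel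
      rw [h2]
      refine Submodule.sub_mem _ ?_ (hWR hwW)
      rw [RM_span]
      exact Submodule.subset_span ⟨T, hT, rfl⟩
    show mono F T ∈ (Submodule.span F (mono F '' {T : Finset (Fin n) | T.card ≤ D}) ⊓ V) ⊔ W
    rw [← RM_span, ← hvw]
    exact Submodule.add_mem_sup (Submodule.mem_inf.mpr ⟨hvD, hv⟩) hwW
  have hdis : (RM F n D ⊓ V) ⊓ W = ⊥ := by
    rw [← le_bot_iff]
    intro g hg
    obtain ⟨h1, h2⟩ := Submodule.mem_inf.mp hg
    rw [Submodule.mem_bot]
    refine irr_unique ww (ww_ord n).1 V g (Submodule.mem_inf.mp h1).2 ?_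
    refine (Submodule.span_mono (Set.image_mono ?_) :
      W ≤ Submodule.span F (mono F '' {T' | ¬ Red ww V T'})) h2
    intro T' hT'
    exact (Finset.mem_filter.mp hT').2.2
  have h := Submodule.finrank_sup_add_finrank_inf_eq (RM F n D ⊓ V) W
  rw [hsup, hdis, finrank_bot, add_zero] at h
  rw [h, hW, span_card]

/-- if `V` is closed under multiplication by variables up to degree `D` then the leading monomials are closed upwards -/
theorem red_up (V : Submodule F (X n → F)) {D : ℕ}
    (hV : ∀ e, e < D → ∀ f ∈ V, f ∈ RM F n e → ∀ i : Fin n, mono F {i} * f ∈ V)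
    {T : Finset (Fin n)} (hT : T.card < D) {i : Fin n} (hi : i ∉ T) (h : Red ww V T) : Red ww V (insert i T) := by
  obtain ⟨g, hg, w, hw, hgw⟩ := Submodule.mem_sup.mp (show mono F T ∈ V ⊔
    Submodule.span F (mono F '' {T' | ww T' < ww T}) from h)
  have hcard : ∀ T' : Finset (Fin n), ww T' < ww T → T'.card ≤ T.card := by
    intro T' h
    by_contra hc
    have := (ww_ord n).2 T' T (by omega)
    omega
  have hwR : w ∈ RM F n T.card := by
    rw [RM_span]
    refine (Submodule.span_mono (Set.image_mono ?_) : _ ≤ _) hw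
    intro T' hT'
    exact hcard T' hT'
  have hgR : g ∈ RM F n T.card := by
    have h2 : g = mono F T - w := by rw [← hgw]; abel
    rw [h2]
    exact Submodule.sub_mem _ (mono_mem le_rfl) hwR
  have h1 := hV T.card hT g hg hgR i
  have h2 : mono F {i} * w ∈ Submodule.span F (mono F '' {T' | ww T' < ww (insert i T)}) := by
    have hle : Submodule.span F (mono F '' {T' | ww T' < ww T}) ≤
        Submodule.comap (LinearMap.mulLeft F (mono F {i})) (Submodule.span F (mono F '' {T' | ww T' < ww (insert i T)})) := by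
      rw [Submodule.span_le]
      rintro _ ⟨T', hT', rfl⟩
      show mono F {i} * mono F T' ∈ Submodule.span F (mono F '' {T' | ww T' < ww (insert i T)})
      rw [mono_mul, ← Finset.insert_eq]
      exact Submodule.subset_span ⟨insert i T', ww_insert hT' hi, rfl⟩
    exact hle hw
  show mono F (insert i T) ∈ V ⊔ Submodule.span F (mono F '' {T' | ww T' < ww (insert i T)})
  have h3 : mono F (insert i T) = mono F {i} * g + mono F {i} * w := by
    rw [← mul_add, hgw, mono_mul, ← Finset.insert_eq]
  rw [h3]
  exact Submodule.add_mem_sup h1 h2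

end

/-! ### the inequality -/

/-- the number of monomials of degree at most `D` -/
def bin (n D : ℕ) : ℕ := ∑ i ∈ Finset.range (D + 1), n.choose i

/-- the irreducible monomials of degree `j` -/
noncomputable def ir {F : Type} [Field F] {n : ℕ} (V : Submodule F (X n → F)) (j : ℕ) : Finset (Finset (Fin n)) :=
  Finset.univ.filter fun T => T.card = j ∧ ¬ Red ww V T

theorem ir_step {F : Type} [Field F] {n : ℕ} (V : Submodule F (X n → F)) {D : ℕ}
    (hV : ∀ e, e < D → ∀ f ∈ V, f ∈ RM F n e → ∀ i : Fin n, mono F {i} * f ∈ V) {j : ℕ} (hj : j < D) :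
    (ir V (j + 1)).card * n.choose j ≤ (ir V j).card * n.choose (j + 1) := by
  have hsized : ((ir V (j + 1) : Finset (Finset (Fin n))) : Set (Finset (Fin n))).Sized (j + 1) := by
    intro T hT
    exact (Finset.mem_filter.mp (Finset.mem_coe.mp hT)).2.1
  have h1 := Finset.local_lubell_yamamoto_meshalkin_inequality_mul hsized
  rw [Fintype.card_fin] at h1
  have h2 : (ir V (j + 1)).shadow ⊆ ir V j := by
    intro T hT
    obtain ⟨U, hU, i, hi, rfl⟩ := Finset.mem_shadow_iff.mp hT
    obtain ⟨hUc, hUr⟩ := (Finset.mem_filter.mp hU).2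
    refine Finset.mem_filter.mpr ⟨Finset.mem_univ _, ?_, ?_⟩
    · rw [Finset.card_erase_of_mem hi, hUc]
      rfl
    · intro hr
      apply hUr
      have h3 := red_up V hV (T := U.erase i) (by rw [Finset.card_erase_of_mem hi, hUc]; omega)
        (Finset.notMem_erase i U) hr
      rwa [Finset.insert_erase hi] at h3
  have h3 := Finset.card_le_card h2
  by_cases hjn : j + 1 ≤ n
  · have h4 : n - (j + 1) + 1 = n - j := by omega
    rw [h4] at h1
    have h5 : (ir V (j + 1)).card * (j + 1) ≤ (ir V j).card * (n - j) := h1.trans (Nat.mul_le_mul_right _ h3)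
    have h6 := Nat.choose_succ_right_eq n j
    have h7 : (j + 1) * ((ir V (j + 1)).card * n.choose j) ≤ (j + 1) * ((ir V j).card * n.choose (j + 1)) := by
      calc (j + 1) * ((ir V (j + 1)).card * n.choose j) = (ir V (j + 1)).card * (j + 1) * n.choose j := by ring
        _ ≤ (ir V j).card * (n - j) * n.choose j := Nat.mul_le_mul_right _ h5
        _ = (ir V j).card * (n.choose j * (n - j)) := by ring
        _ = (ir V j).card * (n.choose (j + 1) * (j + 1)) := by rw [h6]
        _ = (j + 1) * ((ir V j).card * n.choose (j + 1)) := by ring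
    exact Nat.le_of_mul_le_mul_left h7 (Nat.succ_pos j)
  · have h4 : (ir V (j + 1)).card = 0 := by
      rw [Finset.card_eq_zero, Finset.eq_empty_iff_forall_notMem]
      intro T hT
      have h5 := (Finset.mem_filter.mp hT).2.1
      have h6 := Finset.card_le_univ T
      rw [Fintype.card_fin] at h6
      omega
    rw [h4, Nat.zero_mul]
    exact Nat.zero_le _

theorem ir_le {F : Type} [Field F] {n : ℕ} (V : Submodule F (X n → F)) {D : ℕ}
    (hV : ∀ e, e < D → ∀ f ∈ V, f ∈ RM F n e → ∀ i : Fin n, mono F {i} * f ∈ V) {i j : ℕ} (hij : i ≤ j) (hj : j ≤ D) :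
    (ir V j).card * n.choose i ≤ (ir V i).card * n.choose j := by
  induction j, hij using Nat.le_induction with
  | base => exact le_rfl
  | succ j hij ih =>
    have h1 := ih (by omega)
    have h2 := ir_step V hV (j := j) (by omega)
    by_cases hjn : j ≤ n
    · have hpos : 0 < n.choose j := Nat.choose_pos hjn
      have h3 : n.choose j * ((ir V (j + 1)).card * n.choose i) ≤ n.choose j * ((ir V i).card * n.choose (j + 1)) := by
        calc n.choose j * ((ir V (j + 1)).card * n.choose i) = (ir V (j + 1)).card * n.choose j * n.choose i := by ring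
          _ ≤ (ir V j).card * n.choose (j + 1) * n.choose i := Nat.mul_le_mul_right _ h2
          _ = (ir V j).card * n.choose i * n.choose (j + 1) := by ring
          _ ≤ (ir V i).card * n.choose j * n.choose (j + 1) := Nat.mul_le_mul_right _ h1
          _ = n.choose j * ((ir V i).card * n.choose (j + 1)) := by ring
      exact Nat.le_of_mul_le_mul_left h3 hpos
    · have h4 : (ir V (j + 1)).card = 0 := by
        rw [Finset.card_eq_zero, Finset.eq_empty_iff_forall_notMem]
        intro T hT
        have h5 := (Finset.mem_filter.mp hT).2.1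
        have h6 := Finset.card_le_univ T
        rw [Fintype.card_fin] at h6
        omega
      rw [h4, Nat.zero_mul]
      exact Nat.zero_le _

theorem ir_sum {F : Type} [Field F] {n : ℕ} (V : Submodule F (X n → F)) (D : ℕ) :
    (Finset.univ.filter fun T : Finset (Fin n) => T.card ≤ D ∧ ¬ Red ww V T).card =
      ∑ j ∈ Finset.range (D + 1), (ir V j).card := by
  rw [← Finset.card_biUnion]
  · congr 1
    ext T
    simp only [Finset.mem_filter, Finset.mem_univ, true_and, Finset.mem_biUnion, Finset.mem_range, ir]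
    constructor
    · rintro ⟨h1, h2⟩
      exact ⟨T.card, by omega, rfl, h2⟩
    · rintro ⟨j, h1, h2, h3⟩
      exact ⟨by omega, h3⟩
  · intro i _ j _ hij
    rw [Function.onFun, Finset.disjoint_left]
    intro T hT hT'
    exact hij ((Finset.mem_filter.mp hT).2.1.symm.trans (Finset.mem_filter.mp hT').2.1)

/-- LYM inequality for the codimensions -/
theorem lym {F : Type} [Field F] {n : ℕ} (V : Submodule F (X n → F)) {D : ℕ}
    (hV : ∀ e, e < D → ∀ f ∈ V, f ∈ RM F n e → ∀ i : Fin n, mono F {i} * f ∈ V) {D' : ℕ} (h : D' ≤ D) :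
    (bin n D' : ℝ) * ((Module.finrank F (RM F n D) : ℝ) - Module.finrank F ↥(RM F n D ⊓ V)) ≤
      (bin n D : ℝ) * ((Module.finrank F (RM F n D') : ℝ) - Module.finrank F ↥(RM F n D' ⊓ V)) := by
  have hc : ∀ D, ((Module.finrank F (RM F n D) : ℝ) - Module.finrank F ↥(RM F n D ⊓ V)) =
      ((∑ j ∈ Finset.range (D + 1), (ir V j).card : ℕ) : ℝ) := by
    intro D
    have h1 := codim_eq V D
    rw [ir_sum] at h1
    rw [h1]
    push_cast
    ring
  rw [hc, hc]
  have hsplit : ∀ f : ℕ → ℕ, ∑ j ∈ Finset.range (D + 1), f j =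
      ∑ j ∈ Finset.range (D' + 1), f j + ∑ j ∈ Finset.Ico (D' + 1) (D + 1), f j := by
    intro f
    rw [Finset.range_eq_Ico, Finset.range_eq_Ico, Finset.sum_Ico_consecutive _ (Nat.zero_le _) (by omega)]
  have key : bin n D' * ∑ j ∈ Finset.range (D + 1), (ir V j).card ≤
      bin n D * ∑ j ∈ Finset.range (D' + 1), (ir V j).card := by
    unfold bin
    rw [hsplit (fun j => (ir V j).card), hsplit (fun j => n.choose j), Nat.mul_add, Nat.add_mul]
    refine Nat.add_le_add_left ?_ _
    rw [Finset.sum_mul_sum, Finset.sum_mul_sum, Finset.sum_comm]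
    refine Finset.sum_le_sum fun j hj => Finset.sum_le_sum fun i hi => ?_
    rw [Finset.mem_Ico] at hj
    rw [Finset.mem_range] at hi
    rw [mul_comm (n.choose i), mul_comm (n.choose j)]
    exact ir_le V hV (by omega) (by omega)
  exact_mod_cast key

end H34D3
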