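import Pool.Agent.H85.SD.Lem
import Pool.Agent.H85.SD.Thm
import Pool.Agent.H34.D3.Lym

/-!
The approximation of a disjunction relative to `K` at ONE degree `D`, with the local LYM inequality in the place of the
weights (helper34; background /team-store/H34_AC02.md, section 2).
-/

set_option autoImplicit false
open scoped Classical

namespace H34D3

open H85SD

variable {p : ℕ} {R : Type} [CommRing R] [Algebra (ZMod p) R]

/-- the LYM inequality for the filtration of `T` with the dimensions `b` -/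
def HasLYM (T : TB p R) (b : ℕ → ℝ) : Prop :=
  ∀ (V : Submodule (ZMod p) R) (D D' : ℕ), (∀ e < D, ∀ f ∈ V, f ∈ T.P e → ∀ x ∈ T.P 1, x * f ∈ V) → D' ≤ D →
    b D' * ((Module.finrank (ZMod p) (T.P D) : ℝ) - Module.finrank (ZMod p) ↥(T.P D ⊓ V)) ≤
      b D * ((Module.finrank (ZMod p) (T.P D') : ℝ) - Module.finrank (ZMod p) ↥(T.P D' ⊓ V))

theorem lym_rr {T : TB p R} {b : ℕ → ℝ} (hL : HasLYM T b) {D D' c : ℕ} {a : R} {H : Set R} (hH : ∀ h ∈ H, a * h ∈ T.P c)
    (hd : D + c ≤ T.d) (hD : D' ≤ D) : b D' * rr T D a H ≤ b D * rr T D' a H := by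
  refine hL (Nn T a H) D D' ?_ hD
  intro e he f hf hfe x hx h hh
  have h1 := T.abs (hf h hh) (T.mul hfe (hH h hh)) hx (by omega)
  have e1 : x * f * (a * h) = f * (a * h) * x := by ring
  rw [e1]
  exact h1

section
variable [Fact p.Prime] [FiniteDimensional (ZMod p) R]

/-- one step at the degree `D` -/
theorem step1 (T : TB p R) {b : ℕ → ℝ} (hL : HasLYM T b) {m e A D : ℕ} (hb : 0 < b D) (he : e ≤ D) (g : Fin m → R)
    (hg : ∀ i, g i ∈ T.P e) (hgi : ∀ i, g i * g i = g i) {a : R} (ha : a ∈ T.P A)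
    (hd : D + (A + e) + e * (p + 1) ≤ T.d) :
    ∃ c : Fin m → ZMod p,
      rr T D ((1 - (∑ i, c i • g i) ^ (p - 1)) * a) (Set.range g) ≤
        (1 - (1 - 1 / (p : ℝ)) * (b (D - e) / b D)) * rr T D a (Set.range g) := by
  have hp2 : 2 ≤ p := (Fact.out : p.Prime).two_le
  have hp0 : (0 : ℝ) < p := by exact_mod_cast (by omega : 0 < p)
  have hp1 : (0 : ℝ) ≤ 1 - 1 / (p : ℝ) := by
    rw [sub_nonneg, div_le_one hp0]
    exact_mod_cast (by omega : 1 ≤ p)
  set H : Set R := Set.range g with hH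
  have hHP : ∀ h ∈ H, a * h ∈ T.P (A + e) := by
    rintro _ ⟨i, rfl⟩
    exact T.mul ha (hg i)
  -- averaging
  have hav : (p : ℝ) ^ m * ((1 - 1 / (p : ℝ)) * rr T (D - e) a H) ≤
      ∑ c : Fin m → ZMod p, rr T (D - e) ((∑ i, c i • g i) * a) H := by
    have h1 := avg T (D := D - e) (cc := A + e) (e := e) ((fun h => a * h) '' H) (by
      rintro _ ⟨h, hh, rfl⟩
      exact hHP h hh) (by omega) m g hg hgi (T.P (D - e)) le_rfl
    have h2 : ∀ c : Fin m → ZMod p, T.P (D - e) ⊓ Nn T (∑ i, c i • g i) ((fun h => a * h) '' H) =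
        An T (D - e) ((∑ i, c i • g i) * a) H := by
      intro c
      ext f
      simp only [An, Submodule.mem_inf, mem_Nn, Set.forall_mem_image, mul_assoc]
    have h3 : Module.finrank (ZMod p) ↥(T.P (D - e) ⊓ NA T g ((fun h => a * h) '' H)) ≤
        Module.finrank (ZMod p) (An T (D - e) a H) := by
      refine Submodule.finrank_mono ?_
      intro f hf
      obtain ⟨hf1, hf2⟩ := Submodule.mem_inf.1 hf
      refine Submodule.mem_inf.2 ⟨hf1, ?_⟩
      rintro _ ⟨i, rfl⟩
      have := hf2 i (a * g i) ⟨g i, ⟨i, rfl⟩, rfl⟩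
      have e1 : f * (g i * (a * g i)) = f * (a * (g i * g i)) := by ring
      rwa [e1, hgi] at this
    have h4 : (p : ℝ) * ∑ c : Fin m → ZMod p, (Module.finrank (ZMod p) (An T (D - e) ((∑ i, c i • g i) * a) H) : ℝ) ≤
        (p : ℝ) ^ m * (Module.finrank (ZMod p) (T.P (D - e)) +
          ((p : ℝ) - 1) * Module.finrank (ZMod p) (An T (D - e) a H)) := by
      have h5 : p * ∑ c : Fin m → ZMod p, Module.finrank (ZMod p) (An T (D - e) ((∑ i, c i • g i) * a) H) ≤
          p ^ m * (Module.finrank (ZMod p) (T.P (D - e)) + (p - 1) * Module.finrank (ZMod p) (An T (D - e) a H)) := by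
        refine le_trans ?_ (h1.trans ?_)
        · refine Nat.mul_le_mul_left p (le_of_eq ?_)
          exact Finset.sum_congr rfl fun c _ =>
            congrArg (fun X : Submodule (ZMod p) R => Module.finrank (ZMod p) X) (h2 c).symm
        · exact Nat.mul_le_mul_left _ (Nat.add_le_add_left (Nat.mul_le_mul_left _ h3) _)
      have h6 : ((p * ∑ c : Fin m → ZMod p,
          Module.finrank (ZMod p) (An T (D - e) ((∑ i, c i • g i) * a) H) : ℕ) : ℝ) ≤
          ((p ^ m * (Module.finrank (ZMod p) (T.P (D - e)) +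
            (p - 1) * Module.finrank (ZMod p) (An T (D - e) a H)) : ℕ) : ℝ) := by
        exact_mod_cast h5
      push_cast [Nat.cast_sub (by omega : 1 ≤ p)] at h6
      exact h6
    have h7 : ∑ c : Fin m → ZMod p, rr T (D - e) ((∑ i, c i • g i) * a) H =
        (p : ℝ) ^ m * Module.finrank (ZMod p) (T.P (D - e)) -
          ∑ c : Fin m → ZMod p, (Module.finrank (ZMod p) (An T (D - e) ((∑ i, c i • g i) * a) H) : ℝ) := by
      simp only [rr]
      rw [Finset.sum_sub_distrib, Finset.sum_const, Finset.card_univ, Fintype.card_fun, Fintype.card_fin, ZMod.card,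
        nsmul_eq_mul]
      push_cast
      ring
    rw [h7, rr]
    have h8 : ∑ c : Fin m → ZMod p, (Module.finrank (ZMod p) (An T (D - e) ((∑ i, c i • g i) * a) H) : ℝ) ≤
        (p : ℝ) ^ m * (Module.finrank (ZMod p) (T.P (D - e)) +
          ((p : ℝ) - 1) * Module.finrank (ZMod p) (An T (D - e) a H)) / p := by
      rw [le_div_iff₀ hp0]
      linarith
    have h9 : (p : ℝ) ^ m * (Module.finrank (ZMod p) (T.P (D - e)) +
          ((p : ℝ) - 1) * Module.finrank (ZMod p) (An T (D - e) a H)) / p =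
        (p : ℝ) ^ m * (Module.finrank (ZMod p) (T.P (D - e)) : ℝ) - (p : ℝ) ^ m * ((1 - 1 / (p : ℝ)) *
          ((Module.finrank (ZMod p) (T.P (D - e)) : ℝ) - Module.finrank (ZMod p) (An T (D - e) a H))) := by
      field_simp
      ring
    linarith
  have hc : ∃ c : Fin m → ZMod p, (1 - 1 / (p : ℝ)) * rr T (D - e) a H ≤ rr T (D - e) ((∑ i, c i • g i) * a) H := by
    by_contra hcon
    push Not at hcon
    have h1 : ∑ c : Fin m → ZMod p, rr T (D - e) ((∑ i, c i • g i) * a) H <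
        ∑ _c : Fin m → ZMod p, (1 - 1 / (p : ℝ)) * rr T (D - e) a H :=
      Finset.sum_lt_sum_of_nonempty Finset.univ_nonempty fun c _ => hcon c
    rw [Finset.sum_const, Finset.card_univ, Fintype.card_fun, Fintype.card_fin, ZMod.card, nsmul_eq_mul] at h1
    push_cast at h1
    linarith
  obtain ⟨c, hc⟩ := hc
  refine ⟨c, ?_⟩
  set u : R := ∑ i, c i • g i with hu
  have huP : u ∈ T.P e := Submodule.sum_mem _ fun i _ => (T.P e).smul_mem _ (hg i)
  have hep : e * (p + 1) = e * (p - 1) + e + e := by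
    obtain ⟨q, rfl⟩ : ∃ q, p = q + 1 := ⟨p - 1, by omega⟩
    rw [Nat.add_sub_cancel]
    ring
  have h1 := split T (D := D) (c := A + e) (e := e) H a u hHP huP he (by omega)
  have h2 : ((Module.finrank (ZMod p) (T.P (D - e)) + Module.finrank (ZMod p) (An T D a H) : ℕ) : ℝ) ≤
      ((Module.finrank (ZMod p) (An T D ((1 - u ^ (p - 1)) * a) H) +
        Module.finrank (ZMod p) (An T (D - e) (u * a) H) : ℕ) : ℝ) := by exact_mod_cast h1
  push_cast at h2
  have h3 : rr T D ((1 - u ^ (p - 1)) * a) H ≤ rr T D a H - rr T (D - e) (u * a) H := by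
    rw [rr, rr, rr]
    linarith
  have h4 := lym_rr hL hHP (by omega : D + (A + e) ≤ T.d) (Nat.sub_le D e)
  have h5 : b (D - e) / b D * rr T D a H ≤ rr T (D - e) a H := by
    rw [div_mul_eq_mul_div, div_le_iff₀ hb, mul_comm (rr T (D - e) a H)]
    exact h4
  have h6 := mul_le_mul_of_nonneg_left h5 hp1
  calc rr T D ((1 - u ^ (p - 1)) * a) H ≤ rr T D a H - rr T (D - e) (u * a) H := h3
    _ ≤ rr T D a H - (1 - 1 / (p : ℝ)) * rr T (D - e) a H := by linarith
    _ ≤ rr T D a H - (1 - 1 / (p : ℝ)) * (b (D - e) / b D * rr T D a H) := by linarith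
    _ = (1 - (1 - 1 / (p : ℝ)) * (b (D - e) / b D)) * rr T D a H := by ring

/-- the approximation of the disjunction of `g` at the degree `D` -/
theorem apx (T : TB p R) {b : ℕ → ℝ} (hL : HasLYM T b) {m e D : ℕ} (hb : 0 < b D) (hb0 : 0 ≤ b (D - e))
    (hb1 : b (D - e) ≤ b D) (he : e ≤ D) (g : Fin m → R) (hg : ∀ i, g i ∈ T.P e) (hgi : ∀ i, g i * g i = g i) :
    ∀ w : ℕ, D + (e * (p - 1) * w + e) + e * (p + 1) ≤ T.d →
      ∃ a ∈ T.P (e * (p - 1) * w), (a * a = a ∧
        ∃ c : Fin m → R, (∀ i, c i ∈ T.P (e * (p - 1) * w)) ∧ 1 - a = ∑ i, c i * g i) ∧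
        rr T D a (Set.range g) ≤ (1 - (1 - 1 / (p : ℝ)) * (b (D - e) / b D)) ^ w * hD T D := by
  have hp2 : 2 ≤ p := (Fact.out : p.Prime).two_le
  have hp0 : (0 : ℝ) < p := by exact_mod_cast (by omega : 0 < p)
  have hp1 : (0 : ℝ) ≤ 1 - 1 / (p : ℝ) := by
    rw [sub_nonneg, div_le_one hp0]
    exact_mod_cast (by omega : 1 ≤ p)
  have hp1' : 1 - 1 / (p : ℝ) ≤ 1 := by
    have : 0 ≤ 1 / (p : ℝ) := by positivity
    linarith
  have hq0 : 0 ≤ b (D - e) / b D := div_nonneg hb0 hb.le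
  have hq1 : b (D - e) / b D ≤ 1 := (div_le_one hb).2 hb1
  have hth : 0 ≤ 1 - (1 - 1 / (p : ℝ)) * (b (D - e) / b D) := by
    have := mul_le_one₀ hp1' hq0 hq1
    linarith
  intro w
  induction w with
  | zero =>
    intro hd
    refine ⟨1, by rw [mul_zero]; exact T.one, ⟨one_mul 1, 0, fun i => (T.P _).zero_mem, by simp⟩, ?_⟩
    rw [pow_zero, one_mul]
    have h2 : Module.finrank (ZMod p) ↥(T.P D ⊓ T.K) ≤ Module.finrank (ZMod p) (An T D 1 (Set.range g)) := by
      refine Submodule.finrank_mono ?_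
      intro f hf
      obtain ⟨hf1, hf2⟩ := Submodule.mem_inf.1 hf
      refine Submodule.mem_inf.2 ⟨hf1, ?_⟩
      rintro _ ⟨i, rfl⟩
      rw [one_mul]
      exact T.abs hf2 hf1 (hg i) (by omega)
    have h3 : (Module.finrank (ZMod p) ↥(T.P D ⊓ T.K) : ℝ) ≤ Module.finrank (ZMod p) (An T D 1 (Set.range g)) := by
      exact_mod_cast h2
    rw [rr, hD]
    linarith
  | succ w ih =>
    intro hd
    have hmul : e * (p - 1) * (w + 1) = e * (p - 1) * w + e * (p - 1) := by ring
    rw [hmul] at hd ⊢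
    obtain ⟨a, ha, ⟨haa, c, hc, hca⟩, hU⟩ := ih (by omega)
    obtain ⟨c', hc'⟩ := step1 T hL (A := e * (p - 1) * w) (D := D) hb he g hg hgi ha (by omega)
    set u : R := ∑ i, c' i • g i with hu
    have huP : u ∈ T.P e := Submodule.sum_mem _ fun i _ => (T.P e).smul_mem _ (hg i)
    refine ⟨(1 - u ^ (p - 1)) * a, ?_, ⟨?_, fun i => c i + c' i • (a * u ^ (p - 2)), fun i => ?_, ?_⟩, ?_⟩
    · rw [add_comm]
      exact T.mul ((T.P _).sub_mem (T.mono (Nat.zero_le _) T.one) (T.pw huP (p - 1))) ha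
    · have h2 : u ^ (p - 1) = u ^ (p - 2) * u := by
        rw [← pow_succ]
        congr 1
        omega
      have h3 : u * u ^ (p - 1) = u := by
        rw [← pow_succ', Nat.sub_add_cancel (by omega : 1 ≤ p), T.fro]
      have h4 : u ^ (p - 1) * u ^ (p - 1) = u ^ (p - 1) := by
        calc u ^ (p - 1) * u ^ (p - 1) = u ^ (p - 2) * u * u ^ (p - 1) := by rw [← h2]
          _ = u ^ (p - 2) * (u * u ^ (p - 1)) := by ring
          _ = u ^ (p - 1) := by rw [h3, ← h2]
      calc (1 - u ^ (p - 1)) * a * ((1 - u ^ (p - 1)) * a)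
          = (1 - u ^ (p - 1) - u ^ (p - 1) + u ^ (p - 1) * u ^ (p - 1)) * (a * a) := by ring
        _ = (1 - u ^ (p - 1)) * a := by rw [h4, haa]; ring
    · refine (T.P _).add_mem (T.mono (Nat.le_add_right _ _) (hc i)) ((T.P _).smul_mem _ ?_)
      refine T.mono ?_ (T.mul ha (T.pw huP (p - 2)))
      exact Nat.add_le_add_left (Nat.mul_le_mul_left e (by omega)) _
    · have h1 : 1 - (1 - u ^ (p - 1)) * a = (1 - a) + a * u ^ (p - 2) * u := by
        have h2 : u ^ (p - 1) = u ^ (p - 2) * u := by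
          rw [← pow_succ]
          congr 1
          omega
        rw [h2]
        ring
      rw [h1, hca]
      rw [show a * u ^ (p - 2) * u = ∑ i, (c' i • (a * u ^ (p - 2))) * g i by
        rw [hu, Finset.mul_sum]
        exact Finset.sum_congr rfl fun i _ => by rw [mul_smul_comm, smul_mul_assoc]]
      rw [← Finset.sum_add_distrib]
      exact Finset.sum_congr rfl fun i _ => by rw [add_mul]
    · refine hc'.trans ?_
      rw [pow_succ]
      have h1 := mul_le_mul_of_nonneg_left hU hth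
      linarith

end

end H34D3
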