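import Pool.Agent.H34.D3.Apx

/-!
The LYM inequality for the degree filtration of the functions `Pt n → ZMod p` (helper34).
-/

set_option autoImplicit false
open scoped Classical

namespace H34D3

open SizeDegree H85SD H95RE

theorem prod_mono {F : Type} [Field F] {n : ℕ} (T : Finset (Fin n)) (x : Pt n) :
    ∏ i ∈ T, (if x i then (1 : F) else 0) = mono F T x := by
  rw [Finset.prod_ite_zero, Finset.prod_const_one]
  unfold mono
  by_cases h : ∀ i ∈ T, x i = true
  · rw [if_pos h, if_pos h]
  · rw [if_neg h, if_neg h]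

theorem PP_eq_RM (p n D : ℕ) [Fact p.Prime] : PP p n D = RM (ZMod p) n D := by
  apply le_antisymm
  · rintro g ⟨a, ha⟩
    have h1 : g = ∑ T ∈ Finset.univ.filter (fun T : Finset (Fin n) => T.card ≤ D), a T • mono (ZMod p) T := by
      funext x
      rw [ha x, Finset.sum_apply]
      refine Finset.sum_congr rfl fun T _ => ?_
      rw [Pi.smul_apply, smul_eq_mul, ← prod_mono]
    rw [h1]
    exact Submodule.sum_mem _ fun T hT => Submodule.smul_mem _ _ (mono_mem (Finset.mem_filter.mp hT).2)
  · unfold RM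
    rw [Submodule.span_le]
    rintro _ ⟨T, hT, rfl⟩
    refine ⟨fun S => if S = T then 1 else 0, fun x => ?_⟩
    rw [Finset.sum_eq_single T]
    · show mono (ZMod p) T x = (if T = T then (1 : ZMod p) else 0) * ∏ i ∈ T, (if x i then (1 : ZMod p) else 0)
      rw [if_pos rfl, one_mul, prod_mono]
    · intro S _ hS
      show (if S = T then (1 : ZMod p) else 0) * ∏ i ∈ S, (if x i then (1 : ZMod p) else 0) = 0
      rw [if_neg hS, zero_mul]
    · intro h
      exact absurd (Finset.mem_filter.mpr ⟨Finset.mem_univ T, hT⟩) h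

theorem bin_pos (n D : ℕ) : 0 < bin n D := by
  unfold bin
  refine Finset.sum_pos' (fun _ _ => Nat.zero_le _) ⟨0, Finset.mem_range.mpr (Nat.succ_pos D), ?_⟩
  rw [Nat.choose_zero_right]
  exact Nat.one_pos

theorem bin_mono (n : ℕ) {D D' : ℕ} (h : D ≤ D') : bin n D ≤ bin n D' :=
  Finset.sum_le_sum_of_subset (Finset.range_mono (by omega))

/-- the derived functions satisfy the LYM inequality -/
theorem hasLYM {p : ℕ} [Fact p.Prime] {n m : ℕ} (Φ : Fin m → Clause n) (d : ℕ) :
    HasLYM (TT p Φ d) (fun D => (bin n D : ℝ)) := by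
  intro V D D' hV hD
  have h1 := lym (F := ZMod p) (n := n) V (D := D) (by
    intro e he f hf hfe i
    refine hV e he f hf ?_ (mono (ZMod p) {i}) ?_
    · show f ∈ PP p n e
      rw [PP_eq_RM]
      exact hfe
    · show mono (ZMod p) {i} ∈ PP p n 1
      rw [PP_eq_RM]
      exact mono_mem (by rw [Finset.card_singleton])) hD
  show (bin n D' : ℝ) * ((Module.finrank (ZMod p) (PP p n D) : ℝ) - Module.finrank (ZMod p) ↥(PP p n D ⊓ V)) ≤
    (bin n D : ℝ) * ((Module.finrank (ZMod p) (PP p n D') : ℝ) - Module.finrank (ZMod p) ↥(PP p n D' ⊓ V))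
  rw [PP_eq_RM, PP_eq_RM]
  exact h1

end H34D3
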