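import Pool.Agent.H91.D2.Core
import Pool.Agent.H34.D3.Cnc

/-!
The two-level core of D3 with the LYM inequality at one degree `D`: only `1 ∉ K` is needed (helper34; adapted from helper91's
H91/D2/Core.lean and Ch.lean).
-/

set_option autoImplicit false
open scoped Classical

namespace H34D3

open SizeDegree GateLines H85SD H91D2

section
variable {p : ℕ} {R : Type} [CommRing R] [Algebra (ZMod p) R]

/-- the multiplier -/
theorem choose_f1 [Fact p.Prime] [FiniteDimensional (ZMod p) R] (T : TB p R) {ι : Type} [Fintype ι]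
    (a : ι → R) (L : ι → Set R) {D : ℕ} (hN : ∑ i, rr T D (a i) (L i) < hD T D) :
    ∃ f : R, f ∈ T.P D ∧ f ∉ T.K ∧ ∀ i, ∀ g ∈ L i, f * (a i * g) ∈ T.K := by
  have hdim := SizeDegree.inter_dim (T.P D) (fun i => An T D (a i) (L i)) (fun i => inf_le_left) Finset.univ
  have hne : ¬ (T.P D ⊓ Finset.univ.inf (fun i => An T D (a i) (L i)) ≤ T.K) := by
    intro hle
    have h2 : Module.finrank (ZMod p) ↥(T.P D ⊓ Finset.univ.inf (fun i => An T D (a i) (L i))) ≤
        Module.finrank (ZMod p) ↥(T.P D ⊓ T.K) := Submodule.finrank_mono (le_inf inf_le_left hle)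
    have h3 : (Module.finrank (ZMod p) ↥(T.P D ⊓ Finset.univ.inf (fun i => An T D (a i) (L i))) : ℝ) ≤
        Module.finrank (ZMod p) ↥(T.P D ⊓ T.K) := by exact_mod_cast h2
    rw [hD] at hN
    simp only [rr] at hN
    linarith
  rw [SetLike.not_le_iff_exists] at hne
  obtain ⟨f, hf, hfK⟩ := hne
  obtain ⟨hf1, hf2⟩ := Submodule.mem_inf.1 hf
  refine ⟨f, hf1, hfK, fun i => ?_⟩
  have h3 : f ∈ An T D (a i) (L i) := by
    have h4 : Finset.univ.inf (fun i => An T D (a i) (L i)) ≤ An T D (a i) (L i) := Finset.inf_le (Finset.mem_univ i)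
    exact h4 hf2
  exact (Submodule.mem_inf.1 h3).2

theorem hD_nonneg [Fact p.Prime] [FiniteDimensional (ZMod p) R] (T : TB p R) (D : ℕ) : 0 ≤ hD T D := by
  have h : Module.finrank (ZMod p) ↥(T.P D ⊓ T.K) ≤ Module.finrank (ZMod p) (T.P D) := Submodule.finrank_mono inf_le_left
  have h' : (Module.finrank (ZMod p) ↥(T.P D ⊓ T.K) : ℝ) ≤ Module.finrank (ZMod p) (T.P D) := by exact_mod_cast h
  rw [hD]
  linarith

theorem hD_pos [Fact p.Prime] [FiniteDimensional (ZMod p) R] (T : TB p R) (D : ℕ) (h1 : (1 : R) ∉ T.K) : 0 < hD T D := by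
  have hlt : T.P D ⊓ T.K < T.P D := by
    refine lt_of_le_of_ne inf_le_left fun h => h1 ?_
    have h2 : (1 : R) ∈ T.P D := T.mono (Nat.zero_le D) T.one
    rw [← h] at h2
    exact (Submodule.mem_inf.1 h2).2
  have h2 := Submodule.finrank_lt_finrank_of_lt hlt
  have h3 : (Module.finrank (ZMod p) ↥(T.P D ⊓ T.K) : ℝ) < Module.finrank (ZMod p) (T.P D) := by exact_mod_cast h2
  rw [hD]
  linarith

/-- the approximation of the elements of a family of sets -/
theorem apx_all [Fact p.Prime] [FiniteDimensional (ZMod p) R] [Finite R] (T : TB p R) {b : ℕ → ℝ} (hL : HasLYM T b)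
    {ι : Type} (L : ι → Set R) {e D w : ℕ} (hb : 0 < b D) (hb0 : 0 ≤ b (D - e)) (hb1 : b (D - e) ≤ b D) (he : e ≤ D)
    (hLe : ∀ i, ∀ g ∈ L i, g ∈ T.P e) (hLi : ∀ i, ∀ g ∈ L i, g * g = g)
    (hd : D + (e * (p - 1) * w + e) + e * (p + 1) ≤ T.d) :
    ∃ a : ι → R, ∀ i, a i ∈ T.P (e * (p - 1) * w) ∧ a i * a i = a i ∧
      (∃ (mm : ℕ) (c g : Fin mm → R), (∀ r, c r ∈ T.P (e * (p - 1) * w)) ∧ (∀ r, g r ∈ L i) ∧
        1 - a i = ∑ r, c r * g r) ∧
      rr T D (a i) (L i) ≤ (1 - (1 - 1 / (p : ℝ)) * (b (D - e) / b D)) ^ w * hD T D := by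
  have hap : ∀ i, ∃ a ∈ T.P (e * (p - 1) * w), a * a = a ∧ (∃ (mm : ℕ) (c g : Fin mm → R),
      (∀ r, c r ∈ T.P (e * (p - 1) * w)) ∧ (∀ r, g r ∈ L i) ∧ 1 - a = ∑ r, c r * g r) ∧
        rr T D a (L i) ≤ (1 - (1 - 1 / (p : ℝ)) * (b (D - e) / b D)) ^ w * hD T D := by
    intro i
    obtain ⟨m, g, hg⟩ := enum (L i)
    have hgm : ∀ r, g r ∈ L i := fun r => hg ▸ Set.mem_range_self r
    obtain ⟨a, ha, ⟨haa, c, hc, hca⟩, hU⟩ := apx T hL hb hb0 hb1 he g (fun r => hLe i _ (hgm r))
      (fun r => hLi i _ (hgm r)) w hd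
    rw [hg] at hU
    exact ⟨a, ha, haa, ⟨m, c, g, hc, hgm, hca⟩, hU⟩
  choose a ha haa hc hU using hap
  exact ⟨a, fun i => ⟨ha i, haa i, hc i, hU i⟩⟩

end

/-- the loss factor of one step -/
noncomputable def kap (p n D e : ℕ) : ℝ := (1 - 1 / (p : ℝ)) * ((bin n (D - e) : ℝ) / bin n D)

theorem kap_le_one (p n D e : ℕ) [Fact p.Prime] : 0 ≤ kap p n D e ∧ kap p n D e ≤ 1 := by
  have hp2 : 2 ≤ p := (Fact.out : p.Prime).two_le
  have hp0 : (0 : ℝ) < p := by exact_mod_cast (by omega : 0 < p)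
  have hp1 : (0 : ℝ) ≤ 1 - 1 / (p : ℝ) := by
    rw [sub_nonneg, div_le_one hp0]
    exact_mod_cast (by omega : 1 ≤ p)
  have hp1' : 1 - 1 / (p : ℝ) ≤ 1 := by
    have : 0 ≤ 1 / (p : ℝ) := by positivity
    linarith
  have hb : (0 : ℝ) < bin n D := by exact_mod_cast bin_pos n D
  have hb1 : (bin n (D - e) : ℝ) ≤ bin n D := by exact_mod_cast bin_mono n (Nat.sub_le D e)
  have h1 : (0 : ℝ) ≤ (bin n (D - e) : ℝ) / bin n D := div_nonneg (Nat.cast_nonneg _) hb.le
  have h2 : (bin n (D - e) : ℝ) / bin n D ≤ 1 := (div_le_one hb).2 hb1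
  exact ⟨mul_nonneg hp1 h1, mul_le_one₀ hp1' h1 h2⟩

theorem core2 {p : ℕ} [Fact p.Prime] {n m e f s k d N w1 w2 Δ D1 D : ℕ} (Φ : Fin m → Clause n)
    (hk : ∀ j, (Φ j).card ≤ k) (hK1 : ¬ Derives Φ d (1 : Pt n → ZMod p)) (hΔ : Δ = e * (p - 1) * w1 + 1)
    (hD1 : D1 = e * Δ) (he : e ≤ D) (hD1m : D1 ≤ D) (hd1 : D + (Δ + e) + e * (p + 1) ≤ d)
    (hd2 : D + 2 * (D1 * (p - 1) * w2) + (f + 3) * ((s + 1) * D1 + k + 1) + Δ + e + D1 + D1 * (p + 1) ≤ d)
    (hN : (N : ℝ) * ((1 - kap p n D e) ^ w1 + (1 - kap p n D D1) ^ w2) < 1) : ¬ Refutes p e f s Φ N := by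
  rintro ⟨M, G, l, hM, hN1, hG, hl, hlast, hstep⟩
  set T := TT p Φ d with hT
  have hL : HasLYM T (fun D => (bin n D : ℝ)) := hasLYM Φ d
  have hbpos : (0 : ℝ) < bin n D := by exact_mod_cast bin_pos n D
  have hble : ∀ j, (bin n (D - j) : ℝ) ≤ bin n D := fun j => by exact_mod_cast bin_mono n (Nat.sub_le D j)
  have hDpos : 0 < hD T D := hD_pos T D hK1
  -- gates
  obtain ⟨aG, haG⟩ := apx_all T hL G (e := e) (D := D) (w := w1) hbpos (Nat.cast_nonneg _) (hble e) he
    (fun j g hg => (hG j g hg).1) (fun j g hg => cond_idem (hG j g hg))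
    (by change D + (e * (p - 1) * w1 + e) + e * (p + 1) ≤ d; omega)
  set b : Fin M → Pt n → ZMod p := fun j => 1 - aG j with hb
  have hbb : ∀ j, b j * b j = b j := by
    intro j
    have h1 := (haG j).2.1
    calc b j * b j = 1 - aG j - aG j + aG j * aG j := by rw [hb]; ring
      _ = b j := by rw [h1, hb]; ring
  have h01 : ∀ j x, b j x = 0 ∨ b j x = 1 := fun j x => idem_01 (hbb j) x
  have haGP : ∀ j, aG j ∈ PP p n Δ := fun j => PP_mono (by omega) (haG j).1
  have hbP : ∀ j, b j ∈ PP p n Δ := fun j => (PP p n Δ).sub_mem (PP_mono (Nat.zero_le _) PP_one) (haGP j)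
  have hΔ1 : 1 ≤ Δ := by omega
  -- lines
  have hL2 : ∀ i : Fin N, ∀ g ∈ psi b '' (l i), Cond D1 g := by
    rintro i _ ⟨F, hF, rfl⟩
    rw [hD1]
    exact psi_cond b h01 hΔ1 hbP (hl i i.2 F hF)
  obtain ⟨aL, haL⟩ := apx_all T hL (fun i : Fin N => psi b '' (l i)) (e := D1) (D := D) (w := w2) hbpos
    (Nat.cast_nonneg _) (hble D1) hD1m (fun i g hg => (hL2 i g hg).1) (fun i g hg => cond_idem (hL2 i g hg))
    (by change D + (D1 * (p - 1) * w2 + D1) + D1 * (p + 1) ≤ d; omega)
  -- the multiplier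
  obtain ⟨F0, hF0, hF0K, hF0a⟩ := choose_f1 T (ι := Fin M ⊕ Fin N) (Sum.elim aG aL)
    (Sum.elim G (fun i : Fin N => psi b '' (l i))) (D := D) (by
      rw [Fintype.sum_sum_type]
      simp only [Sum.elim_inl, Sum.elim_inr]
      have s1 : ∀ j ∈ (Finset.univ : Finset (Fin M)), rr T D (aG j) (G j) ≤ (1 - kap p n D e) ^ w1 * hD T D :=
        fun j _ => (haG j).2.2.2
      have s2 : ∀ i ∈ (Finset.univ : Finset (Fin N)), rr T D (aL i) (psi b '' (l i)) ≤
          (1 - kap p n D D1) ^ w2 * hD T D := fun i _ => (haL i).2.2.2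
      have s1 := Finset.sum_le_sum s1
      have s2 := Finset.sum_le_sum s2
      rw [Finset.sum_const, Finset.card_univ, Fintype.card_fin, nsmul_eq_mul] at s1 s2
      have k1 := kap_le_one p n D e
      have h3 : 0 ≤ (1 - kap p n D e) ^ w1 * hD T D :=
        mul_nonneg (pow_nonneg (by linarith [k1.2]) _) hDpos.le
      have h4 : (M : ℝ) ≤ N := by exact_mod_cast hM
      have h5 := mul_le_mul_of_nonneg_right h4 h3
      have h6 := mul_lt_mul_of_pos_right hN hDpos
      rw [one_mul] at h6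
      calc _ ≤ (N : ℝ) * ((1 - kap p n D e) ^ w1 * hD T D) + (N : ℝ) * ((1 - kap p n D D1) ^ w2 * hD T D) :=
            add_le_add (s1.trans h5) s2
        _ = (N : ℝ) * ((1 - kap p n D e) ^ w1 + (1 - kap p n D D1) ^ w2) * hD T D := by ring
        _ < hD T D := h6)
  have hgate : ∀ j, ∀ g ∈ G j, F0 * (aG j * g) ∈ KK p Φ d := fun j g hg => hF0a (Sum.inl j) g hg
  have hline : ∀ i : Fin N, ∀ g ∈ psi b '' (l i), F0 * (aL i * g) ∈ KK p Φ d := fun i g hg => hF0a (Sum.inr i) g hg
  have hF0P : F0 ∈ PP p n D := hF0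
  set W := D1 * (p - 1) * w2 with hW
  have haLP : ∀ i, aL i ∈ PP p n W := fun i => (haL i).1
  -- the claim
  have claim : ∀ i, ∀ hi : i < N, F0 * aL ⟨i, hi⟩ ∈ KK p Φ d := by
    intro i
    induction i using Nat.strong_induction_on with
    | _ i ih =>
      intro hi
      set a := aL ⟨i, hi⟩ with ha
      have haP : a ∈ PP p n W := haLP _
      rcases hstep i hi with ⟨j, hj⟩ | ⟨J, Jc, hJ, hJc, hJi, hinf⟩
      · rcases hj with ⟨g, hg, h1, h2⟩ | ⟨h1, h2⟩
        · -- g implies the gate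
          have k1 : F0 * (a * (1 - g)) ∈ KK p Φ d := by
            refine hline ⟨i, hi⟩ (1 - g) ⟨1 - lift M g, h1, ?_⟩
            rw [map_sub, psi_one, psi_lift]
          have k2 : F0 * (a * b j) ∈ KK p Φ d := by
            refine hline ⟨i, hi⟩ (b j) ⟨gate n j, h2, ?_⟩
            rw [psi_gate b h01]
          have k3 := hgate j g hg
          have hgP : g ∈ PP p n e := (hG j g hg).1
          have k4 : F0 * (a * b j) * g ∈ KK p Φ d :=
            KK_abs Φ k2 (PP_mul hF0P (PP_mul haP (hbP j))) hgP (by omega)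
          have k5 : F0 * (aG j * g) * a ∈ KK p Φ d :=
            KK_abs Φ k3 (PP_mul hF0P (PP_mul (haGP j) hgP)) haP (by omega)
          have : F0 * a = F0 * (a * (1 - g)) + F0 * (a * b j) * g + F0 * (aG j * g) * a := by
            rw [hb]
            ring
          rw [this]
          exact (KK p Φ d).add_mem ((KK p Φ d).add_mem k1 k4) k5
        · -- the gate implies one of the g
          have k1 : F0 * (a * (1 - b j)) ∈ KK p Φ d := by
            refine hline ⟨i, hi⟩ (1 - b j) ⟨1 - gate n j, h1, ?_⟩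
            rw [map_sub, psi_one, psi_gate b h01]
          have k2 : ∀ g ∈ G j, F0 * (a * g) ∈ KK p Φ d := by
            intro g hg
            refine hline ⟨i, hi⟩ g ⟨lift M g, h2 g hg, ?_⟩
            rw [psi_lift]
          obtain ⟨mm, c, g, hc, hg, hsum⟩ := (haG j).2.2.1
          have k3 : ∀ r, F0 * (a * g r) * c r ∈ KK p Φ d := fun r =>
            KK_abs Φ (k2 (g r) (hg r)) (PP_mul hF0P (PP_mul haP (hG j _ (hg r)).1))
              (PP_mono (by omega : e * (p - 1) * w1 ≤ Δ) (hc r)) (by omega)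
          have k4 : ∑ r, F0 * (a * g r) * c r ∈ KK p Φ d := Submodule.sum_mem _ fun r _ => k3 r
          have k5 : ∑ r, F0 * (a * g r) * c r = F0 * (a * b j) := by
            have : b j = ∑ r, c r * g r := hsum
            rw [this, Finset.mul_sum, Finset.mul_sum]
            exact Finset.sum_congr rfl fun r _ => by ring
          have : F0 * a = F0 * (a * (1 - b j)) + F0 * (a * b j) := by ring
          rw [this, ← k5]
          exact (KK p Φ d).add_mem k1 k4
      · -- local inference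
        have hc0 : Cond 0 (0 : Pt n → ZMod p) := ⟨(PP p n 0).zero_mem, fun x => Or.inl rfl⟩
        let Ln : ℕ → Line p n D1 0 := fun i =>
          { E := {g | g ∈ psi b '' (l i) ∧ Cond D1 g}, hE := fun g hg => hg.2, h := 0, hh := hc0 }
        have hLE : ∀ j, j < N → (Ln j).E = psi b '' (l j) := by
          intro j hj
          ext g
          exact ⟨fun h => h.1, fun h => ⟨h, hL2 ⟨j, hj⟩ g h⟩⟩
        let aa : ℕ → Pt n → ZMod p := fun j => if h : j < N then aL ⟨j, h⟩ else 1
        have haa : ∀ j, ∀ h : j < N, aa j = aL ⟨j, h⟩ := fun j h => dif_pos h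
        have hspan : ∀ (X Y : Set (Pt (M + n) → ZMod p)) (g : Pt (M + n) → ZMod p),
            g ∈ Submodule.span (ZMod p) (X ∪ Y) → psi b g ∈ Submodule.span (ZMod p) (psi b '' X ∪ psi b '' Y) := by
          intro X Y g hg
          rw [← Set.image_union, ← Submodule.map_span]
          exact Submodule.mem_map_of_mem hg
        obtain ⟨A, B, hA, hBc, hB, hsem⟩ := hinf
        have hinf' : SizeDegree.Infers s Φ Jc Ln J (Ln i) := by
          refine ⟨fun j => (A j).image (psi b), B.image (psi b), fun j hj => ⟨?_, ?_, ?_⟩, ?_, ?_, ?_⟩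
          · exact Finset.card_image_le.trans (hA j hj).1
          · intro g hg
            obtain ⟨F, hF, rfl⟩ := Finset.mem_image.mp hg
            rw [hD1]
            exact psi_cond b h01 hΔ1 hbP ((hA j hj).2.1 F hF)
          · rw [hLE j (lt_trans (hJi j hj) hi), hLE i hi]
            rintro _ ⟨F, hF, rfl⟩
            have h1 := hspan _ _ F ((hA j hj).2.2 hF)
            rw [Finset.coe_image]
            exact h1
          · exact Finset.card_image_le.trans hBc
          · intro g hg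
            obtain ⟨F, hF, rfl⟩ := Finset.mem_image.mp hg
            refine ⟨?_, ?_⟩
            · rw [hD1]
              exact psi_cond b h01 hΔ1 hbP (hB F hF).1
            · rw [hLE i hi, ← Submodule.map_span]
              exact Submodule.mem_map_of_mem (hB F hF).2
          · intro x hx hprem
            right
            obtain ⟨F, hF, hFx⟩ := hsem (mix b x) (fun j hj => by rw [vars_mix]; exact hx j hj) (fun j hj => by
              rcases hprem j hj with h | ⟨g, hg, hgx⟩
              · exact absurd h (by change (0 : ZMod p) ≠ 1; exact zero_ne_one)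
              · obtain ⟨F, hF, rfl⟩ := Finset.mem_image.mp hg
                exact ⟨F, hF, hgx⟩)
            exact ⟨psi b F, Finset.mem_image_of_mem _ hF, hFx⟩
        have h0 := sound_step (e := D1) (t := 0) (W := W) Φ hk Ln J Jc hJ hJc hinf' hF0P aa
          (by
            intro j hj
            have hjN : j < N := by
              rcases Finset.mem_insert.mp hj with rfl | hj
              · exact hi
              · exact lt_trans (hJi j hj) hi
            rw [haa j hjN]
            exact haLP _)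
          (by
            intro j hj
            have hjN := lt_trans (hJi j hj) hi
            rw [haa j hjN, hLE j hjN]
            exact (haL ⟨j, hjN⟩).2.2.1)
          (by
            intro g hg
            rw [hLE i hi] at hg
            rw [haa i hi]
            exact hline ⟨i, hi⟩ g hg)
          (by
            intro j hj
            have hjN := lt_trans (hJi j hj) hi
            rw [haa j hjN]
            change F0 * (aL ⟨j, hjN⟩ * (1 - 0)) ∈ KK p Φ d
            rw [sub_zero, mul_one]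
            exact ih j (hJi j hj) hjN)
          (by
            have : (f + 3) * (0 + (s + 1) * D1 + k + 1) = (f + 3) * ((s + 1) * D1 + k + 1) := by rw [zero_add]
            omega)
        rw [haa i hi] at h0
        change F0 * (aL ⟨i, hi⟩ * (1 - 0)) ∈ KK p Φ d at h0
        rwa [sub_zero, mul_one] at h0
  -- the last line
  have hNlt : N - 1 < N := by omega
  have hc := claim (N - 1) hNlt
  obtain ⟨mm, c, g, -, hg, hsum⟩ := (haL ⟨N - 1, hNlt⟩).2.2.1
  have h1 : ∑ r, c r * g r = 0 := by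
    refine Finset.sum_eq_zero fun r _ => ?_
    have h2 := hg r
    simp only [hlast, Set.image_empty] at h2
    exact absurd h2 (Set.notMem_empty _)
  rw [h1, sub_eq_zero] at hsum
  rw [← hsum, mul_one] at hc
  exact hF0K hc

end H34D3
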