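import Pool.Agent.H34.D3.Core

/-!
Numerics for the two-level core with the LYM inequality (helper34).
-/

set_option autoImplicit false
open scoped Classical

namespace H34D3

open SizeDegree

theorem choose_step {n i : ℕ} {A : ℝ} (hA0 : 0 ≤ A) (hi : 1 ≤ i) (h2 : 2 * i ≤ n) (hA : (n : ℝ) - 2 * i + 1 ≤ A) :
    (1 - 2 * A / n) * (n.choose i : ℝ) ≤ n.choose (i - 1) := by
  obtain ⟨j, rfl⟩ : ∃ j, i = j + 1 := ⟨i - 1, by omega⟩
  have h1 := Nat.choose_succ_right_eq n j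
  have h1' : (n.choose (j + 1) : ℝ) * (j + 1) = n.choose j * ((n : ℝ) - j) := by
    have h3 : ((n.choose (j + 1) * (j + 1) : ℕ) : ℝ) = ((n.choose j * (n - j) : ℕ) : ℝ) := by rw [h1]
    push_cast [Nat.cast_sub (show j ≤ n by omega)] at h3
    exact h3
  have hn : (0 : ℝ) < n := by exact_mod_cast (by omega : 0 < n)
  have h2' : 2 * ((j : ℝ) + 1) ≤ n := by exact_mod_cast h2
  push_cast at hA
  have hpos : (0 : ℝ) < (n : ℝ) - j := by linarith
  have hc : (0 : ℝ) ≤ n.choose (j + 1) := Nat.cast_nonneg _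
  rw [Nat.add_sub_cancel]
  have h4 : (1 - 2 * A / n) * ((n : ℝ) - j) ≤ j + 1 := by
    have h5 : A ≤ 2 * A / n * ((n : ℝ) - j) := by
      rw [div_mul_eq_mul_div, le_div_iff₀ hn]
      nlinarith
    nlinarith
  have h6 : (1 - 2 * A / n) * (n.choose (j + 1) : ℝ) * ((n : ℝ) - j) ≤ n.choose j * ((n : ℝ) - j) := by
    rw [← h1']
    nlinarith
  exact le_of_mul_le_mul_right h6 hpos

theorem choose_steps {n D J : ℕ} {A : ℝ} (hA0 : 0 ≤ A) (hJD : J ≤ D) (h2 : 2 * D ≤ n) (hA : (n : ℝ) - 2 * D + 2 * J ≤ A)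
    (hx : 2 * A / n ≤ 1) : ∀ j ≤ J, (1 - j * (2 * A / n)) * (n.choose D : ℝ) ≤ n.choose (D - j) := by
  intro j
  induction j with
  | zero => intro _; simp
  | succ j ih =>
    intro hj
    have h1 := ih (by omega)
    have h3 : (1 - 2 * A / n) * (n.choose (D - j) : ℝ) ≤ n.choose (D - j - 1) := by
      refine choose_step hA0 (by omega) (by omega) ?_
      have : ((D - j : ℕ) : ℝ) = (D : ℝ) - j := by rw [Nat.cast_sub (by omega)]
      rw [this]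
      have h4 : (j : ℝ) + 1 ≤ J := by exact_mod_cast hj
      linarith
    have hc : (0 : ℝ) ≤ n.choose D := Nat.cast_nonneg _
    have hx0 : 0 ≤ 2 * A / n := by positivity
    rw [← Nat.sub_sub]
    refine le_trans ?_ h3
    refine le_trans ?_ (mul_le_mul_of_nonneg_left h1 (by linarith))
    push_cast
    have h5 : 0 ≤ (j : ℝ) * (2 * A / n) * (2 * A / n) * (n.choose D : ℝ) := by positivity
    nlinarith

theorem bin_ge {n D J : ℕ} {A : ℝ} (hA0 : 0 ≤ A) (hJD : J ≤ D) (h2 : 2 * D ≤ n) (hA : (n : ℝ) - 2 * D + 2 * J ≤ A)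
    (hx : 2 * A / n ≤ 1) (hJ : J * (2 * A / n) ≤ 1 / 2) : ((J : ℝ) + 1) / 2 * (n.choose D : ℝ) ≤ bin n D := by
  have h1 := choose_steps hA0 hJD h2 hA hx
  have h3 : ∑ j ∈ Finset.range (J + 1), (n.choose (D - j) : ℝ) ≤ bin n D := by
    have h4 : ∑ j ∈ Finset.range (J + 1), n.choose (D - j) ≤ bin n D := by
      unfold bin
      have h5 : ∑ j ∈ Finset.range (J + 1), n.choose (D - j) =
          ∑ i ∈ (Finset.range (J + 1)).image (fun j => D - j), n.choose i := by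
        rw [Finset.sum_image]
        intro a ha b hb hab
        have ha' := Finset.mem_range.1 ha
        have hb' := Finset.mem_range.1 hb
        simp only at hab
        omega
      rw [h5]
      refine Finset.sum_le_sum_of_subset ?_
      intro i hi
      obtain ⟨j, hj, rfl⟩ := Finset.mem_image.1 hi
      exact Finset.mem_range.2 (by omega)
    exact_mod_cast h4
  refine le_trans ?_ h3
  have h6 : ∀ j ∈ Finset.range (J + 1), (1 / 2 : ℝ) * (n.choose D : ℝ) ≤ n.choose (D - j) := by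
    intro j hj
    have hj' : j ≤ J := by have := Finset.mem_range.1 hj; omega
    refine le_trans ?_ (h1 j hj')
    have hjJ : (j : ℝ) ≤ J := by exact_mod_cast hj'
    have hx0 : 0 ≤ 2 * A / n := by positivity
    have : (j : ℝ) * (2 * A / n) ≤ 1 / 2 := le_trans (mul_le_mul_of_nonneg_right hjJ hx0) hJ
    exact mul_le_mul_of_nonneg_right (by linarith) (Nat.cast_nonneg _)
  refine le_trans (le_of_eq ?_) (Finset.sum_le_sum h6)
  rw [Finset.sum_const, Finset.card_range, nsmul_eq_mul]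
  push_cast
  ring

theorem bin_ratio {n J : ℕ} {A : ℝ} (hA0 : 0 ≤ A) (hx : 2 * A / n ≤ 1) (hJ : J * (2 * A / n) ≤ 1 / 2) (hJ1 : 1 ≤ J) :
    ∀ e D : ℕ, J + e ≤ D → 2 * D ≤ n → (n : ℝ) - 2 * D + 2 * J + 2 * e ≤ A →
      (1 - 2 / ((J : ℝ) + 1)) ^ e * bin n D ≤ bin n (D - e) := by
  intro e
  induction e with
  | zero => intro D _ _ _; simp
  | succ e ih =>
    intro D hD h2 hA
    have hJ' : (1 : ℝ) ≤ J := by exact_mod_cast hJ1
    have h0 : (0 : ℝ) ≤ 1 - 2 / ((J : ℝ) + 1) := by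
      rw [sub_nonneg, div_le_one (by linarith)]
      linarith
    push_cast at hA
    have h1 := bin_ge hA0 (show J ≤ D by omega) h2 (by linarith) hx hJ
    have h3 : (bin n D : ℝ) = bin n (D - 1) + n.choose D := by
      obtain ⟨j, rfl⟩ : ∃ j, D = j + 1 := ⟨D - 1, by omega⟩
      rw [Nat.add_sub_cancel]
      unfold bin
      rw [Finset.sum_range_succ]
      push_cast
      ring
    have h4 : (1 - 2 / ((J : ℝ) + 1)) * bin n D ≤ bin n (D - 1) := by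
      have h5 : (n.choose D : ℝ) ≤ 2 / ((J : ℝ) + 1) * bin n D := by
        rw [div_mul_eq_mul_div, le_div_iff₀ (by linarith)]
        linarith
      linarith
    have h6 := ih (D - 1) (by omega) (by omega) (by
      have : ((D - 1 : ℕ) : ℝ) = (D : ℝ) - 1 := by rw [Nat.cast_sub (by omega)]; simp
      rw [this]
      linarith)
    have h7 : D - 1 - e = D - (e + 1) := by omega
    rw [h7] at h6
    refine le_trans ?_ h6
    rw [pow_succ, mul_assoc]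
    exact mul_le_mul_of_nonneg_left h4 (pow_nonneg h0 e)

/-- the loss of one step -/
theorem kap_ge {p n r e h D : ℕ} (hp : 2 ≤ p) (hr : 320 ≤ r) (hrn : r ≤ n / r) (hD : D = n / 2 - 8 * (n / r))
    (he : e ≤ h * (r / 320)) (hes : e ≤ n / r) : (1 / 2 : ℝ) ^ (h + 1) ≤ kap p n D e := by
  have hr0 : 0 < r := by omega
  have hnr : n / r * r ≤ n := Nat.div_mul_le_self n r
  have hn320 : 320 * (n / r) ≤ n := by nlinarith
  have hn0 : 0 < n := by omega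
  have hn0' : (0 : ℝ) < n := by exact_mod_cast hn0
  set s0 := n / r with hs0
  have hJ0 : r / 80 * (80 * s0) ≤ n := by
    have : r / 80 * 80 ≤ r := Nat.div_mul_le_self r 80
    nlinarith
  have hJ1 : 1 ≤ r / 80 := by omega
  have hA0 : (0 : ℝ) ≤ ((20 * s0 : ℕ) : ℝ) := Nat.cast_nonneg _
  have hx : 2 * ((20 * s0 : ℕ) : ℝ) / n ≤ 1 := by
    rw [div_le_one hn0']
    exact_mod_cast (by omega : 2 * (20 * s0) ≤ n)
  have hJ : ((r / 80 : ℕ) : ℝ) * (2 * ((20 * s0 : ℕ) : ℝ) / n) ≤ 1 / 2 := by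
    rw [mul_div_assoc', div_le_iff₀ hn0']
    have : ((r / 80 * (80 * s0) : ℕ) : ℝ) ≤ n := by exact_mod_cast hJ0
    push_cast at this ⊢
    linarith
  have hA : (n : ℝ) - 2 * D + 2 * ((r / 80 : ℕ) : ℝ) + 2 * e ≤ ((20 * s0 : ℕ) : ℝ) := by
    have h1 : n + 2 * (r / 80) + 2 * e ≤ 2 * D + 20 * s0 := by omega
    have h2 : ((n + 2 * (r / 80) + 2 * e : ℕ) : ℝ) ≤ ((2 * D + 20 * s0 : ℕ) : ℝ) := by exact_mod_cast h1
    push_cast at h2 ⊢
    linarith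
  have h1 := bin_ratio hA0 hx hJ hJ1 e D (by omega) (by omega) hA
  have hb : (0 : ℝ) < bin n D := by exact_mod_cast bin_pos n D
  have h2 : (1 - 2 / (((r / 80 : ℕ) : ℝ) + 1)) ^ e ≤ (bin n (D - e) : ℝ) / bin n D := by
    rw [le_div_iff₀ hb]
    exact h1
  have hrr : (320 : ℝ) ≤ r := by exact_mod_cast hr
  have h3 : 2 / (((r / 80 : ℕ) : ℝ) + 1) ≤ 160 / r := by
    have h4 : r ≤ 80 * (r / 80 + 1) := by omega
    have h4' : (r : ℝ) ≤ 80 * (((r / 80 : ℕ) : ℝ) + 1) := by exact_mod_cast h4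
    have h5 : (0 : ℝ) < ((r / 80 : ℕ) : ℝ) + 1 := by positivity
    rw [div_le_div_iff₀ h5 (by linarith)]
    linarith
  have h6 : 160 / (r : ℝ) ≤ 1 / 2 := by
    rw [div_le_div_iff₀ (by linarith) (by norm_num)]
    linarith
  have h60 : 0 ≤ 160 / (r : ℝ) := by positivity
  have h7 : (1 - 160 / (r : ℝ)) ^ e ≤ (1 - 2 / (((r / 80 : ℕ) : ℝ) + 1)) ^ e :=
    pow_le_pow_left₀ (by linarith) (by linarith) e
  have h8 : (1 / 2 : ℝ) ≤ (1 - 160 / (r : ℝ)) ^ (r / 320) := by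
    have h9 := one_add_mul_le_pow (a := -(160 / (r : ℝ))) (by linarith) (r / 320)
    have h10 : ((r / 320 : ℕ) : ℝ) * (160 / (r : ℝ)) ≤ 1 / 2 := by
      rw [mul_div_assoc', div_le_iff₀ (by linarith)]
      have : ((320 * (r / 320) : ℕ) : ℝ) ≤ r := by exact_mod_cast (by omega : 320 * (r / 320) ≤ r)
      push_cast at this
      linarith
    have h11 : (1 : ℝ) + -(160 / (r : ℝ)) = 1 - 160 / r := by ring
    rw [h11] at h9
    linarith
  have h12 : (1 / 2 : ℝ) ^ h ≤ (1 - 160 / (r : ℝ)) ^ e := by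
    calc (1 / 2 : ℝ) ^ h ≤ ((1 - 160 / (r : ℝ)) ^ (r / 320)) ^ h := pow_le_pow_left₀ (by norm_num) h8 h
      _ = (1 - 160 / (r : ℝ)) ^ (h * (r / 320)) := by rw [← pow_mul, mul_comm]
      _ ≤ (1 - 160 / (r : ℝ)) ^ e := pow_le_pow_of_le_one (by linarith) (by linarith) he
  have hp2 : (2 : ℝ) ≤ p := by exact_mod_cast hp
  have h13 : (1 / 2 : ℝ) ≤ 1 - 1 / (p : ℝ) := by
    have : 1 / (p : ℝ) ≤ 1 / 2 := one_div_le_one_div_of_le (by norm_num) hp2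
    linarith
  unfold kap
  rw [pow_succ, mul_comm]
  exact mul_le_mul h13 (h12.trans (h7.trans h2)) (by positivity) (by linarith)

theorem growth (Q : ℕ) : ∃ C0 : ℕ, ∀ l : ℕ, C0 ≤ l → Q * (l + 5) ^ 2 ≤ 2 ^ (l / 4) := by
  have h1 := tendsto_pow_const_div_const_pow_of_one_lt 2 (show (1 : ℝ) < 2 by norm_num)
  have hε : (0 : ℝ) < 1 / (Q * 64 + 1) := by positivity
  have h2 := (h1.eventually (gt_mem_nhds hε))
  obtain ⟨a0, ha0⟩ := Filter.eventually_atTop.1 h2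
  refine ⟨4 * a0 + 8, fun l hl => ?_⟩
  have ha := ha0 (l / 4) (by omega)
  have hpow : (0 : ℝ) < 2 ^ (l / 4) := by positivity
  rw [div_lt_div_iff₀ hpow (by positivity), one_mul] at ha
  have ha' : (l / 4) ^ 2 * (Q * 64 + 1) < 2 ^ (l / 4) := by exact_mod_cast ha
  have h3 : l + 5 ≤ 8 * (l / 4) := by omega
  have h4 : (l + 5) ^ 2 ≤ 64 * (l / 4) ^ 2 := by
    calc (l + 5) ^ 2 ≤ (8 * (l / 4)) ^ 2 := Nat.pow_le_pow_left h3 2
      _ = 64 * (l / 4) ^ 2 := by ring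
  calc Q * (l + 5) ^ 2 ≤ Q * (64 * (l / 4) ^ 2) := Nat.mul_le_mul_left _ h4
    _ ≤ (l / 4) ^ 2 * (Q * 64 + 1) := by nlinarith [Nat.zero_le ((l / 4) ^ 2)]
    _ ≤ 2 ^ (l / 4) := ha'.le

theorem root_bound {a b l n : ℕ} (hb : 0 < b) (h : a ^ b ≤ n) (hn : n < 2 ^ (l + 1)) : a + 1 ≤ 2 * 2 ^ (l / b) := by
  have h1 : l + 1 ≤ b * (l / b + 1) := Nat.lt_mul_div_succ l hb
  have h2 : a ^ b < (2 ^ (l / b + 1)) ^ b := by
    calc a ^ b ≤ n := h
      _ < 2 ^ (l + 1) := hn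
      _ ≤ 2 ^ (b * (l / b + 1)) := Nat.pow_le_pow_right (by norm_num) h1
      _ = (2 ^ (l / b + 1)) ^ b := by rw [← pow_mul, mul_comm]
  have h3 := lt_of_pow_lt_pow_left₀ b (Nat.zero_le _) h2
  rw [pow_succ] at h3
  omega

theorem clog_bound {C n r N : ℕ} (h : N ^ C < n ^ r) :
    C * (Nat.clog 2 N - 1) ≤ (Nat.log 2 n + 1) * r := by
  rcases Nat.lt_or_ge N 2 with hN | hN
  · have : Nat.clog 2 N = 0 := Nat.clog_of_right_le_one (by omega) 2
    rw [this]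
    simp
  have h1 : 2 ^ (Nat.clog 2 N - 1) < N := Nat.pow_pred_clog_lt_self (by norm_num) (by omega)
  have h2 : n < 2 ^ (Nat.log 2 n + 1) := Nat.lt_pow_succ_log_self (by norm_num) n
  have h3 : 2 ^ (C * (Nat.clog 2 N - 1)) < 2 ^ ((Nat.log 2 n + 1) * r) := by
    calc 2 ^ (C * (Nat.clog 2 N - 1)) = (2 ^ (Nat.clog 2 N - 1)) ^ C := by rw [← pow_mul, mul_comm]
      _ ≤ N ^ C := Nat.pow_le_pow_left h1.le C
      _ < n ^ r := h
      _ ≤ (2 ^ (Nat.log 2 n + 1)) ^ r := Nat.pow_le_pow_left h2.le r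
      _ = 2 ^ ((Nat.log 2 n + 1) * r) := by rw [← pow_mul]
  exact (Nat.pow_lt_pow_iff_right (by norm_num)).1 h3 |>.le

theorem small1 {L w : ℕ} {N κ : ℝ} (hN : N ≤ 2 ^ L) (hκ : 1 / 4 ≤ κ) (hκ1 : κ ≤ 1) (hw : w = 4 * (L + 2)) :
    N * (1 - κ) ^ w ≤ 1 / 4 := by
  subst hw
  have h1 : (1 - κ) ^ (4 * (L + 2)) ≤ (1 / 2 : ℝ) ^ (L + 2) := by
    rw [pow_mul]
    refine pow_le_pow_left₀ (by positivity) ?_ _
    calc (1 - κ) ^ 4 ≤ (3 / 4 : ℝ) ^ 4 := pow_le_pow_left₀ (by linarith) (by linarith) 4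
      _ ≤ 1 / 2 := by norm_num
  calc N * (1 - κ) ^ (4 * (L + 2)) ≤ 2 ^ L * (1 / 2 : ℝ) ^ (L + 2) :=
        mul_le_mul hN h1 (pow_nonneg (by linarith) _) (by positivity)
    _ = 1 / 4 := by
        rw [pow_add, ← mul_assoc, ← mul_pow]
        norm_num

theorem small2 {L H w : ℕ} {N κ : ℝ} (hN : N ≤ 2 ^ L) (hκ : (1 / 2 : ℝ) ^ (H + 1) ≤ κ) (hκ1 : κ ≤ 1)
    (hw : w = 2 ^ (H + 1) * (L + 2)) : N * (1 - κ) ^ w ≤ 1 / 4 := by
  subst hw
  have h0 : (1 - κ) ^ (2 ^ (H + 1)) ≤ (1 / 2 : ℝ) := by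
    have h1 : (1 - κ) ^ (2 ^ (H + 1)) ≤ (Real.exp (-κ)) ^ (2 ^ (H + 1)) :=
      pow_le_pow_left₀ (by linarith) (by have := Real.add_one_le_exp (-κ); linarith) _
    refine h1.trans ?_
    rw [← Real.exp_nat_mul]
    have h2 : ((2 ^ (H + 1) : ℕ) : ℝ) * -κ ≤ -1 := by
      have h3 : (1 : ℝ) ≤ (2 : ℝ) ^ (H + 1) * κ := by
        calc (1 : ℝ) = (2 : ℝ) ^ (H + 1) * (1 / 2 : ℝ) ^ (H + 1) := by rw [← mul_pow]; norm_num
          _ ≤ _ := mul_le_mul_of_nonneg_left hκ (by positivity)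
      push_cast
      linarith
    refine (Real.exp_le_exp.2 h2).trans ?_
    rw [Real.exp_neg, inv_eq_one_div]
    exact one_div_le_one_div_of_le (by norm_num) (by have := Real.add_one_le_exp (1 : ℝ); linarith)
  have h1 : (1 - κ) ^ (2 ^ (H + 1) * (L + 2)) ≤ (1 / 2 : ℝ) ^ (L + 2) := by
    rw [pow_mul]
    exact pow_le_pow_left₀ (pow_nonneg (by linarith) _) h0 _
  calc N * (1 - κ) ^ (2 ^ (H + 1) * (L + 2)) ≤ 2 ^ L * (1 / 2 : ℝ) ^ (L + 2) :=
        mul_le_mul hN h1 (pow_nonneg (by linarith) _) (by positivity)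
    _ = 1 / 4 := by
        rw [pow_add, ← mul_assoc, ← mul_pow]
        norm_num

theorem d1_le {p e L : ℕ} (he : 1 ≤ e) (hp : 1 ≤ p) :
    e * (e * (p - 1) * (4 * (L + 2)) + 1) ≤ 4 * e ^ 2 * p * (L + 3) := by
  obtain ⟨q, rfl⟩ : ∃ q, p = q + 1 := ⟨p - 1, by omega⟩
  rw [Nat.add_sub_cancel]
  have h1 : e * (e * q * (4 * (L + 2)) + 1) = 4 * e ^ 2 * q * (L + 2) + e := by ring
  have h2 : 4 * e ^ 2 * (q + 1) * (L + 3) = 4 * e ^ 2 * q * (L + 2) + (4 * e ^ 2 * q + 4 * (e ^ 2 * L) + 12 * e ^ 2) := by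
    ring
  have h3 : e ≤ e ^ 2 := Nat.le_self_pow (by norm_num) e
  rw [h1, h2]
  omega

/-- the parameters -/
theorem num (p e : ℕ) [Fact p.Prime] (he : 1 ≤ e) : ∃ C : ℕ, 1 ≤ C ∧ ∀ n r k f s N : ℕ, C ≤ r → r ^ 10 ≤ n →
    k ^ 4 ≤ n → f ^ 4 ≤ n → s ^ 4 ≤ n → N ^ C < n ^ r → ∃ w1 w2 Δ D1 D : ℕ, Δ = e * (p - 1) * w1 + 1 ∧ D1 = e * Δ ∧
      e ≤ D ∧ D1 ≤ D ∧ D + (Δ + e) + e * (p + 1) ≤ n / 2 - n / r ∧
      D + 2 * (D1 * (p - 1) * w2) + (f + 3) * ((s + 1) * D1 + k + 1) + Δ + e + D1 + D1 * (p + 1) ≤ n / 2 - n / r ∧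
      (N : ℝ) * ((1 - kap p n D e) ^ w1 + (1 - kap p n D D1) ^ w2) < 1 := by
  have hp : 2 ≤ p := (Fact.out : p.Prime).two_le
  set P := 4 * e ^ 2 * p with hP
  set Q := 64 * p * P + 16 * P + 8 + 2 * (p + 4) * P with hQ
  obtain ⟨C0, hC0⟩ := growth (8 * Q)
  have hP1 : e ≤ P := by
    rw [hP]
    calc e ≤ e ^ 2 := Nat.le_self_pow (by norm_num) e
      _ ≤ 4 * e ^ 2 := Nat.le_mul_of_pos_left _ (by norm_num)
      _ ≤ 4 * e ^ 2 * p := Nat.le_mul_of_pos_right _ (by omega)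
  have hP0 : 1 ≤ P := he.trans hP1
  obtain ⟨Z, hZ⟩ : ∃ Z : ℕ, Z = 2 ^ C0 := ⟨_, rfl⟩
  refine ⟨Z + 10240 * P, by omega, fun n r k f s N hCr hrn hk hf hs hN => ?_⟩
  set C := Z + 10240 * P with hC
  have hr0 : r ≠ 0 := by omega
  have hrn1 : r ≤ n := (Nat.le_self_pow (by norm_num) r).trans hrn
  have hn0 : n ≠ 0 := by omega
  set l := Nat.log 2 n with hl
  set L := Nat.clog 2 N with hL
  have hln : 2 ^ l ≤ n := Nat.pow_log_le_self 2 hn0
  have hln2 : n < 2 ^ (l + 1) := Nat.lt_pow_succ_log_self (by norm_num) n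
  have hlC : C0 ≤ l := Nat.le_log_of_pow_le (by norm_num) (by rw [← hZ]; omega)
  have hCL : C * (L - 1) ≤ (l + 1) * r := clog_bound hN
  have hNL : (N : ℝ) ≤ 2 ^ L := by exact_mod_cast Nat.le_pow_clog (by norm_num : 1 < 2) N
  have hC1 : 1 ≤ C := by omega
  have hr2 := root_bound (by norm_num) hrn hln2
  have hk2 := root_bound (by norm_num) hk hln2
  have hf2 := root_bound (by norm_num) hf hln2
  have hs2 := root_bound (by norm_num) hs hln2
  have hx1 : 1 ≤ 2 ^ (l / 10) := Nat.one_le_two_pow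
  have hx2 : 1 ≤ 2 ^ (l / 4) := Nat.one_le_two_pow
  have hL1 : L + 3 ≤ 2 * (l + 5) * 2 ^ (l / 10) := by
    have h1 : L - 1 ≤ (l + 1) * r := le_trans (Nat.le_mul_of_pos_left _ hC1) hCL
    have h2 : (l + 1) * r ≤ (l + 1) * (2 * 2 ^ (l / 10)) := Nat.mul_le_mul_left _ (by omega)
    have h3 : 2 * (l + 5) * 2 ^ (l / 10) = (l + 1) * (2 * 2 ^ (l / 10)) + 8 * 2 ^ (l / 10) := by ring
    omega
  set t0 := 4 * r / 320 with ht0
  have ht : 32 * P ≤ t0 := by omega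
  have hrt : r ≤ 640 * t0 := by omega
  set H := l / 16 + 2 with hH
  -- the bound for D1
  set w1 := 4 * (L + 2) with hw1
  set w2 := 2 ^ (H + 1) * (L + 2) with hw2
  set Δ := e * (p - 1) * w1 + 1 with hΔ
  set D1 := e * Δ with hD1
  have hD1P : D1 ≤ P * (L + 3) := by
    exact d1_le he (by omega)
  have hΔ1 : Δ ≤ D1 := by rw [hD1]; exact Nat.le_mul_of_pos_left _ he
  have heD1 : e ≤ D1 := by rw [hD1]; exact Nat.le_mul_of_pos_right _ (by omega)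
  have hD1t : D1 ≤ H * t0 := by
    have h1 : C * (L + 3) ≤ (l + 1) * r + 4 * C := by
      have : C * (L + 3) ≤ C * (L - 1) + 4 * C := by
        have h2 : L + 3 ≤ (L - 1) + 4 := by omega
        calc C * (L + 3) ≤ C * ((L - 1) + 4) := Nat.mul_le_mul_left _ h2
          _ = C * (L - 1) + 4 * C := by ring
      omega
    have h2 : C * (P * (L + 3)) ≤ C * (H * t0) := by
      have h3 : l + 17 ≤ 16 * H := by omega
      have h5 : 10240 * P ≤ C := by omega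
      have h6 : 16 * (C * (P * (L + 3))) ≤ 16 * (C * (H * t0)) := by
        calc 16 * (C * (P * (L + 3))) = 16 * P * (C * (L + 3)) := by ring
          _ ≤ 16 * P * ((l + 1) * r + 4 * C) := Nat.mul_le_mul_left _ h1
          _ = 16 * P * (l + 1) * r + C * (64 * P) := by ring
          _ ≤ 16 * P * (l + 1) * (640 * t0) + C * (16 * t0) :=
              Nat.add_le_add (Nat.mul_le_mul_left _ hrt) (Nat.mul_le_mul_left _ (by omega))
          _ = 10240 * P * ((l + 1) * t0) + C * (16 * t0) := by ring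
          _ ≤ C * ((l + 1) * t0) + C * (16 * t0) := Nat.add_le_add_right (Nat.mul_le_mul_right _ h5) _
          _ = C * t0 * (l + 17) := by ring
          _ ≤ C * t0 * (16 * H) := Nat.mul_le_mul_left _ h3
          _ = 16 * (C * (H * t0)) := by ring
      omega
    have h3 : P * (L + 3) ≤ H * t0 := Nat.le_of_mul_le_mul_left h2 (by omega)
    omega
  -- the size of n / (4 r)
  set G := 2 ^ (l / 2 + l / 10) * (l + 5) ^ 2 with hG
  set s1 := n / (4 * r) with hs1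
  have hr4 : 4 * r ≤ 8 * 2 ^ (l / 10) := by omega
  have hQG : Q * G ≤ s1 := by
    rw [hs1, Nat.le_div_iff_mul_le (by omega)]
    have h1 := hC0 l hlC
    calc Q * G * (4 * r) ≤ Q * G * (8 * 2 ^ (l / 10)) := Nat.mul_le_mul_left _ hr4
      _ = 8 * Q * (l + 5) ^ 2 * 2 ^ (l / 2 + l / 10) * 2 ^ (l / 10) := by rw [hG]; ring
      _ ≤ 2 ^ (l / 4) * 2 ^ (l / 2 + l / 10) * 2 ^ (l / 10) := Nat.mul_le_mul_right _ (Nat.mul_le_mul_right _ h1)
      _ = 2 ^ (l / 4 + (l / 2 + l / 10) + l / 10) := by rw [← pow_add, ← pow_add]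
      _ ≤ 2 ^ l := Nat.pow_le_pow_right (by norm_num) (by omega)
      _ ≤ n := hln
  have hGs : 8 * G ≤ s1 := by
    refine le_trans (Nat.mul_le_mul_right _ ?_) hQG
    omega
  have hG0 : 2 ^ (l / 10) ≤ G := by
    rw [hG]
    calc 2 ^ (l / 10) ≤ 2 ^ (l / 2 + l / 10) := Nat.pow_le_pow_right (by norm_num) (by omega)
      _ ≤ 2 ^ (l / 2 + l / 10) * (l + 5) ^ 2 := Nat.le_mul_of_pos_right _ (by positivity)
  have hrs : 4 * r ≤ s1 := by omega
  have hD1l : D1 ≤ 2 * P * ((l + 5) * 2 ^ (l / 10)) := by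
    refine hD1P.trans (le_trans (Nat.mul_le_mul_left _ hL1) (le_of_eq ?_))
    ring
  have hGa : (l + 5) * 2 ^ (l / 10) * 2 ^ (l / 2) ≤ G := by
    calc (l + 5) * 2 ^ (l / 10) * 2 ^ (l / 2) = 2 ^ (l / 2 + l / 10) * (l + 5) := by rw [pow_add]; ring
      _ ≤ 2 ^ (l / 2 + l / 10) * (l + 5) ^ 2 := Nat.mul_le_mul_left _ (Nat.le_self_pow (by norm_num) _)
  have hy : 1 ≤ 2 ^ (l / 2) := Nat.one_le_two_pow
  have hGb : (l + 5) * 2 ^ (l / 10) ≤ G := le_trans (Nat.le_mul_of_pos_right _ hy) hGa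
  have hD1G : D1 ≤ 2 * P * G := hD1l.trans (Nat.mul_le_mul_left _ hGb)
  have h44 : 2 ^ (l / 4) * 2 ^ (l / 4) ≤ 2 ^ (l / 2) := by
    rw [← pow_add]
    exact Nat.pow_le_pow_right (by norm_num) (by omega)
  have hD1w : D1 * (p - 1) * w2 ≤ 32 * p * P * G := by
    have h2 : w2 ≤ 8 * 2 ^ (l / 16) * (2 * (l + 5) * 2 ^ (l / 10)) := by
      rw [hw2, hH]
      have h3 : 2 ^ (l / 16 + 2 + 1) = 8 * 2 ^ (l / 16) := by rw [add_assoc, pow_add]; ring
      rw [h3]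
      exact Nat.mul_le_mul_left _ (by omega)
    have h5 : 2 ^ (l / 16) * 2 ^ (l / 10) ≤ 2 ^ (l / 2) := by
      rw [← pow_add]
      exact Nat.pow_le_pow_right (by norm_num) (by omega)
    calc D1 * (p - 1) * w2 ≤ (2 * P * ((l + 5) * 2 ^ (l / 10))) * p * (8 * 2 ^ (l / 16) * (2 * (l + 5) * 2 ^ (l / 10))) :=
          Nat.mul_le_mul (Nat.mul_le_mul hD1l (Nat.sub_le p 1)) h2
      _ = 32 * p * P * ((l + 5) ^ 2 * 2 ^ (l / 10)) * (2 ^ (l / 16) * 2 ^ (l / 10)) := by ring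
      _ ≤ 32 * p * P * ((l + 5) ^ 2 * 2 ^ (l / 10)) * 2 ^ (l / 2) := Nat.mul_le_mul_left _ h5
      _ = 32 * p * P * G := by rw [hG, pow_add]; ring
  have hfs : (f + 3) * (s + 1) * D1 ≤ 16 * P * G := by
    have h1 : f + 3 ≤ 4 * 2 ^ (l / 4) := by omega
    have h2 : s + 1 ≤ 2 * 2 ^ (l / 4) := by omega
    calc (f + 3) * (s + 1) * D1 ≤ (4 * 2 ^ (l / 4)) * (2 * 2 ^ (l / 4)) * (2 * P * ((l + 5) * 2 ^ (l / 10))) :=
          Nat.mul_le_mul (Nat.mul_le_mul h1 h2) hD1l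
      _ = 16 * P * ((l + 5) * 2 ^ (l / 10) * (2 ^ (l / 4) * 2 ^ (l / 4))) := by ring
      _ ≤ 16 * P * ((l + 5) * 2 ^ (l / 10) * 2 ^ (l / 2)) := Nat.mul_le_mul_left _ (Nat.mul_le_mul_left _ h44)
      _ ≤ 16 * P * G := Nat.mul_le_mul_left _ hGa
  have hfk : (f + 3) * (k + 1) ≤ 8 * G := by
    have h1 : f + 3 ≤ 4 * 2 ^ (l / 4) := by omega
    have h2 : k + 1 ≤ 2 * 2 ^ (l / 4) := by omega
    have h3 : 2 ^ (l / 2) ≤ G := by
      refine le_trans (Nat.le_mul_of_pos_left _ ?_) hGa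
      positivity
    calc (f + 3) * (k + 1) ≤ (4 * 2 ^ (l / 4)) * (2 * 2 ^ (l / 4)) := Nat.mul_le_mul h1 h2
      _ = 8 * (2 ^ (l / 4) * 2 ^ (l / 4)) := by ring
      _ ≤ 8 * 2 ^ (l / 2) := Nat.mul_le_mul_left _ h44
      _ ≤ 8 * G := Nat.mul_le_mul_left _ h3
  have hX : 2 * (D1 * (p - 1) * w2) + (f + 3) * ((s + 1) * D1 + k + 1) + Δ + e + D1 + D1 * (p + 1) ≤ s1 := by
    have h1 : (f + 3) * ((s + 1) * D1 + k + 1) = (f + 3) * (s + 1) * D1 + (f + 3) * (k + 1) := by ring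
    have h3 : Δ + e + D1 + D1 * (p + 1) ≤ (p + 4) * (2 * P * G) := by
      have h5 : D1 * (p + 1) + 3 * D1 = (p + 4) * D1 := by ring
      have h6 : (p + 4) * D1 ≤ (p + 4) * (2 * P * G) := Nat.mul_le_mul_left _ hD1G
      omega
    have h4 : Q * G = 2 * (32 * p * P * G) + 16 * P * G + 8 * G + (p + 4) * (2 * P * G) := by rw [hQ]; ring
    rw [h1]
    omega
  have hsn : 320 * s1 ≤ n := by
    have h1 : s1 * (4 * r) ≤ n := Nat.div_mul_le_self n (4 * r)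
    have h2 : s1 * 320 ≤ s1 * (4 * r) := Nat.mul_le_mul_left _ (by omega)
    omega
  have hnr : n / r ≤ 4 * s1 + 3 := by
    have h1 : s1 = n / r / 4 := by rw [hs1, mul_comm, Nat.div_div_eq_div_mul]
    omega
  have hDD : e * (p + 1) ≤ D1 * (p + 1) := Nat.mul_le_mul_right _ heD1
  refine ⟨w1, w2, Δ, D1, n / 2 - 8 * s1, rfl, rfl, by omega, by omega, by omega, by omega, ?_⟩
  have hk1 : (1 / 2 : ℝ) ^ (1 + 1) ≤ kap p n (n / 2 - 8 * s1) e :=
    kap_ge hp (by omega) hrs rfl (by omega) (by omega)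
  have hk2 : (1 / 2 : ℝ) ^ (H + 1) ≤ kap p n (n / 2 - 8 * s1) D1 :=
    kap_ge hp (by omega) hrs rfl hD1t (by omega)
  have e1 := small1 hNL (by linarith [hk1, show (1 / 2 : ℝ) ^ (1 + 1) = 1 / 4 by norm_num])
    (kap_le_one p n (n / 2 - 8 * s1) e).2 hw1
  have e2 := small2 hNL hk2 (kap_le_one p n (n / 2 - 8 * s1) D1).2 hw2
  rw [mul_add]
  linarith

end H34D3
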